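import Mathlib
import Pool.Agent.Run7.h476.LS.Main

set_option autoImplicit false

/-!
# Sums and products in families of sets with one long interval at every scale

Let `V e` (`e` in a finite index set) be sets of natural numbers, for instance the classes of a
finite colouring. We know nothing about them except that at every scale `N` in ranges
`[N₁, N₁ ^ R]`, with arbitrarily large `N₁`, there are ONE interval `[A, A ^ (1 + δ)]` with `A` in
`[N, N ^ C]` and one of the sets which contains all but at most `A / (m + 1)` elements of this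
interval; `δ > 0` is fixed and as small as we please, and `R` depends on `δ`, on `C` and on the
number of sets.

(1) Then for every family of `m` patterns `f_l(x) y + g_l(x)`, with `f_l ≥ 1` and `f_l, g_l` bounded
by a power of `x`, one of the sets contains `x` and all the numbers `f_l(x) y + g_l(x)` for some
arbitrarily large `x, y`.

(2) In particular (`m = 4`) one of the sets contains `x, y, x + y, x y, x (y + 1)`.

Proof. Two of `r + 1` scales, each a large power of the previous one, have the same set. Take `x`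
near the lower end of the interval of the smaller scale, and `y` near the lower end of the other
interval; then all the numbers `f_l(x) y + g_l(x)` are in the second interval, and there are more
such `y` than exceptions.
-/

namespace Pool.Agent.Results.MP_3c6abb_co.LongIntervals

/-- For every `N₀` there is `N₁ ≥ N₀` such that for every `N` in `[N₁, N₁ ^ R]` there are `A` in
`[N, N ^ C]` and `e` such that `V e` contains all but at most `A / s` elements of
`[A, A ^ (1 + δ)]`. -/
def HasIntervals {κ : Type*} (V : κ → Set ℕ) (δ : ℝ) (C R s : ℕ) : Prop :=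
  ∀ N₀ : ℕ, ∃ N₁ ≥ N₀, ∀ N : ℕ, N₁ ≤ N → N ≤ N₁ ^ R → ∃ (A : ℕ) (e : κ), N ≤ A ∧ A ≤ N ^ C ∧
    s * {n : ℕ | A ≤ n ∧ (n : ℝ) ≤ (A : ℝ) ^ (1 + δ) ∧ n ∉ V e}.ncard ≤ A

/-- See the description of the two parts above. -/
theorem result (κ : Type*) [Finite κ] (δ : ℝ) (hδ : 0 < δ) (C : ℕ) :
    (∀ (m d : ℕ) (f g : Fin m → ℕ → ℕ),
      (∀ l x, 2 ≤ x → 0 < f l x ∧ f l x ≤ x ^ d ∧ g l x ≤ x ^ d) →
      ∃ R : ℕ, ∀ V : κ → Set ℕ, HasIntervals V δ C R (m + 1) →
        ∃ e, ∀ K : ℕ, ∃ x y : ℕ, K < x ∧ K < y ∧ x ∈ V e ∧ ∀ l, f l x * y + g l x ∈ V e) ∧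
    (∃ R : ℕ, ∀ V : κ → Set ℕ, HasIntervals V δ C R 5 →
        ∃ e, ∀ K : ℕ, ∃ x y : ℕ, K < x ∧ K < y ∧
          x ∈ V e ∧ y ∈ V e ∧ x + y ∈ V e ∧ x * y ∈ V e ∧ x * (y + 1) ∈ V e) := by
  have h1 : ∀ (m d : ℕ) (f g : Fin m → ℕ → ℕ),
      (∀ l x, 2 ≤ x → 0 < f l x ∧ f l x ≤ x ^ d ∧ g l x ≤ x ^ d) →
      ∃ R : ℕ, ∀ V : κ → Set ℕ, HasIntervals V δ C R (m + 1) →
        ∃ e, ∀ K : ℕ, ∃ x y : ℕ, K < x ∧ K < y ∧ x ∈ V e ∧ ∀ l, f l x * y + g l x ∈ V e := by
    intro m d f g hf
    obtain ⟨R, hR⟩ := Run7.h476.LS.main (κ := κ) f g d hf δ hδ C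
    rw [Fintype.card_fin] at hR
    exact ⟨R, fun V hV => hR V hV⟩
  refine ⟨h1, ?_⟩
  obtain ⟨R, hR⟩ := h1 4 1 ![fun _ => 1, fun _ => 1, fun x => x, fun x => x]
    ![fun _ => 0, fun x => x, fun _ => 0, fun x => x] (by
      intro l x hx
      fin_cases l <;> simp <;> omega)
  refine ⟨R, fun V hV => ?_⟩
  obtain ⟨e, he⟩ := hR V hV
  refine ⟨e, fun K => ?_⟩
  obtain ⟨x, y, hx, hy, hxV, h⟩ := he K
  have a0 := h 0
  have a1 := h 1
  have a2 := h 2
  have a3 := h 3
  simp only [Matrix.cons_val] at a0 a1 a2 a3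
  refine ⟨x, y, hx, hy, hxV, ?_, ?_, ?_, ?_⟩
  · have e0 : 1 * y + 0 = y := by ring
    rwa [e0] at a0
  · have e1 : 1 * y + x = x + y := by ring
    rwa [e1] at a1
  · have e2 : x * y + 0 = x * y := by ring
    rwa [e2] at a2
  · have e3 : x * y + x = x * (y + 1) := by ring
    rwa [e3] at a3

end Pool.Agent.Results.MP_3c6abb_co.LongIntervals
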